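import Pool.Agent.V1187.WheelMain

/-!
# A quantum graph whose hot-spot set is infinite and not the whole graph

The graph is the equilateral wheel with four spokes. Its second eigenvalue is `π ^ 2 / 4`, with
multiplicity two, and its hot-spot set is the rim of the wheel.
-/

set_option autoImplicit false

namespace Pool.Agent.Results.MP_c0afcf_an.WheelHotSpots

open Pool.Agent.V1187.QG

/-- There is a compact connected metric graph such that, for the Laplacian with standard vertex
conditions, the set of all points at which some second eigenfunction attains its global maximum or its
global minimum is infinite and is not the whole graph. -/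
theorem result : ∃ G : MetricGraph, G.Connected ∧
    (G.HotSpots 0).Infinite ∧ G.HotSpots 0 ≠ Set.univ := by
  refine ⟨wheel, wheel_connected, ?_, ?_⟩
  · have := wheel_hot_infinite wheel_second_zero
    rw [hubStrength_zero] at this
    exact this
  · intro h
    have h1 := wheel_hub_not_hot le_rfl wheel_second_zero
    rw [hubStrength_zero] at h1
    apply h1
    have h2 : wv 4 ∈ (Set.univ : Set wheel.Point) := Set.mem_univ _
    rw [← h] at h2
    exact h2

end Pool.Agent.Results.MP_c0afcf_an.WheelHotSpots
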